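import Pool.Agent.Helper24.HN.Basic

/-!
# Dynamics near a flop curve: the eigenvector and the direction of the periodic path (D5b)
-/

namespace Pool.Agent.Helper66.XN

open Pool.Agent.Helper24.HN Filter Topology

section alg

variable {K : Type*} [Field K] {n : ℕ} {J : Type} (D : Lin K n J)

theorem ld_sub (X Y : Fin n → K) : D.ld (X - Y) = D.ld X - D.ld Y := by
  simp only [Lin.ld, ← Finset.sum_sub_distrib, Pi.sub_apply]
  exact Finset.sum_congr rfl fun i _ => by ring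

theorem ld_add (X Y : Fin n → K) : D.ld (X + Y) = D.ld X + D.ld Y := by
  simp only [Lin.ld, ← Finset.sum_add_distrib, Pi.add_apply]
  exact Finset.sum_congr rfl fun i _ => by ring

theorem ld_smul (a : K) (X : Fin n → K) : D.ld (a • X) = a * D.ld X := by
  simp only [Lin.ld, Finset.mul_sum, Pi.smul_apply, smul_eq_mul]
  exact Finset.sum_congr rfl fun i _ => by ring

theorem phi_sub (w : K) (X Y : Fin n → K) : D.phi w (X - Y) = D.phi w X - D.phi w Y := by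
  simp only [Lin.phi, ← Finset.sum_sub_distrib, Pi.sub_apply]
  exact Finset.sum_congr rfl fun i _ => by ring

theorem phi_add (w : K) (X Y : Fin n → K) : D.phi w (X + Y) = D.phi w X + D.phi w Y := by
  simp only [Lin.phi, ← Finset.sum_add_distrib, Pi.add_apply]
  exact Finset.sum_congr rfl fun i _ => by ring

theorem phi_smul (w a : K) (X : Fin n → K) : D.phi w (a • X) = a * D.phi w X := by
  simp only [Lin.phi, Finset.mul_sum, Pi.smul_apply, smul_eq_mul]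
  exact Finset.sum_congr rfl fun i _ => by ring

theorem T_sub (b : J) (w : K) (X Y : Fin n → K) : D.T b w (X - Y) = D.T b w X - D.T b w Y := by
  simp only [Lin.T, phi_sub, sub_div, sub_smul]
  abel

theorem T_add (b : J) (w : K) (X Y : Fin n → K) : D.T b w (X + Y) = D.T b w X + D.T b w Y := by
  simp only [Lin.T, phi_add, add_div, add_smul]
  abel

theorem T_smul (b : J) (w a : K) (X : Fin n → K) : D.T b w (a • X) = a • D.T b w X := by
  simp only [Lin.T, phi_smul, smul_sub, smul_smul, mul_div_assoc]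

theorem Tp_sub (P : List J) (b : J) (X Y : Fin n → K) :
    D.Tp b P (X - Y) = D.Tp b P X - D.Tp b P Y := by
  induction P generalizing b X Y with
  | nil => rfl
  | cons c P ih => simp only [Lin.Tp, T_sub, ih]

theorem Tp_add (P : List J) (b : J) (X Y : Fin n → K) :
    D.Tp b P (X + Y) = D.Tp b P X + D.Tp b P Y := by
  induction P generalizing b X Y with
  | nil => rfl
  | cons c P ih => simp only [Lin.Tp, T_add, ih]

theorem Tp_smul (P : List J) (b : J) (a : K) (X : Fin n → K) :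
    D.Tp b P (a • X) = a • D.Tp b P X := by
  induction P generalizing b X with
  | nil => rfl
  | cons c P ih => simp only [Lin.Tp, T_smul, ih]

/-- The middle coefficient. -/
def md (X : Fin n → K) : K := ∑ i, D.qb i * X i

/-- The constant coefficient. -/
def ct (X : Fin n → K) : K := ∑ i, D.qc i * X i

theorem phi_eq (w : K) (X : Fin n → K) : D.phi w X = D.ld X * w ^ 2 + md D X * w + ct D X := by
  simp only [Lin.phi, Lin.ld, md, ct, Finset.sum_mul, ← Finset.sum_add_distrib]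
  exact Finset.sum_congr rfl fun i _ => by ring

theorem phi_T (b : J) (w : K) (X : Fin n → K) (h : D.phi w (D.v b) ≠ 0) :
    D.phi w (D.T b w X) = 0 := by
  rw [Lin.T, phi_sub, phi_smul, div_mul_cancel₀ _ h, sub_self]

theorem phi_T' (b : J) (w w' : K) (X : Fin n → K) (h : D.phi w' (D.v b) = 0) :
    D.phi w' (D.T b w X) = D.phi w' X := by
  rw [Lin.T, phi_sub, phi_smul, h, mul_zero, sub_zero]

end alg

section padic

variable {p : ℕ} [Fact p.Prime] {n : ℕ} {J : Type} (D : Lin ℚ_[p] n J)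

theorem mul_le_q {a b : ℚ_[p]} {r : ℝ} (ha : ‖a‖ ≤ r) (hb : ‖b‖ ≤ 1) : ‖a * b‖ ≤ r := by
  rw [norm_mul]
  exact (mul_le_of_le_one_right (norm_nonneg _) hb).trans ha

theorem mul_le_q' {a b : ℚ_[p]} {r : ℝ} (ha : ‖a‖ ≤ 1) (hb : ‖b‖ ≤ r) : ‖a * b‖ ≤ r := by
  rw [mul_comm]
  exact mul_le_q hb ha

theorem smul_le_q {a : ℚ_[p]} {v : Fin n → ℚ_[p]} {r : ℝ} (ha : ‖a‖ ≤ r) (hv : ‖v‖ ≤ 1) :
    ‖a • v‖ ≤ r := by
  rw [norm_smul]
  exact (mul_le_of_le_one_right (norm_nonneg _) hv).trans ha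

theorem sum_le_q {q X : Fin n → ℚ_[p]} (hq : ∀ i, ‖q i‖ ≤ 1) : ‖∑ i, q i * X i‖ ≤ ‖X‖ := by
  refine IsUltrametricDist.norm_sum_le_of_forall_le_of_nonneg (norm_nonneg _) fun i _ => ?_
  exact mul_le_q' (hq i) (norm_le_pi_norm X i)

/-- All values of the quadratic polynomial are small. -/
def Sm (ε : ℝ) (X : Fin n → ℚ_[p]) : Prop := ∀ w : ℚ_[p], ‖w‖ ≤ 1 → ‖D.phi w X‖ ≤ ε

variable {D}

theorem Sm.T {ε : ℝ} {X : Fin n → ℚ_[p]} (h : Sm D ε X) (hv : ∀ a w, ‖w‖ ≤ 1 →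
    ‖D.phi w (D.v a)‖ ≤ 1) {b : J} {w : ℚ_[p]} (hw : ‖w‖ ≤ 1) (hb : ‖D.phi w (D.v b)‖ = 1) :
    Sm D ε (D.T b w X) := by
  intro u hu
  rw [Lin.T, phi_sub, phi_smul]
  refine sub_le' (h u hu) (mul_le_q ?_ (hv b u hu))
  rw [norm_div, hb, div_one]
  exact h w hw

theorem Sm.T_near {ε : ℝ} {X : Fin n → ℚ_[p]} (h : Sm D ε X) (hv : ∀ a, ‖D.v a‖ ≤ 1) {b : J}
    {w : ℚ_[p]} (hw : ‖w‖ ≤ 1) (hb : ‖D.phi w (D.v b)‖ = 1) : ‖D.T b w X - X‖ ≤ ε := by
  have e : D.T b w X - X = - ((D.phi w X / D.phi w (D.v b)) • D.v b) := by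
    rw [Lin.T]; abel
  rw [e, norm_neg]
  refine smul_le_q ?_ (hv b)
  rw [norm_div, hb, div_one]
  exact h w hw

/-- A vector on which the forms at two zeros and the leading coefficient are small. -/
theorem Sm.of {ε : ℝ} {X : Fin n → ℚ_[p]} {s t : ℚ_[p]} (hs : ‖s‖ ≤ 1) (ht : ‖t‖ ≤ 1)
    (hst : ‖s - t‖ = 1) (h1 : ‖D.phi s X‖ ≤ ε) (h2 : ‖D.phi t X‖ ≤ ε) (h3 : ‖D.ld X‖ ≤ ε) :
    Sm D ε X := by
  have hne : s - t ≠ 0 := by
    intro h0
    rw [h0, norm_zero] at hst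
    exact zero_ne_one hst
  have hb : md D X = (D.phi s X - D.phi t X) / (s - t) - D.ld X * (s + t) := by
    rw [phi_eq, phi_eq]
    field_simp
    ring
  have hb' : ‖md D X‖ ≤ ε := by
    rw [hb]
    refine sub_le' ?_ (mul_le_q h3 (add_le' hs ht))
    rw [norm_div, hst, div_one]
    exact sub_le' h1 h2
  have hc : ct D X = D.phi s X - D.ld X * s ^ 2 - md D X * s := by
    rw [phi_eq]; ring
  have hs2 : ‖s ^ 2‖ ≤ 1 := by
    rw [norm_pow]
    exact pow_le_one₀ (norm_nonneg _) hs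
  have hc' : ‖ct D X‖ ≤ ε := by
    rw [hc]
    exact sub_le' (sub_le' h1 (mul_le_q h3 hs2)) (mul_le_q hb' hs)
  intro w hw
  rw [phi_eq]
  have hw2 : ‖w ^ 2‖ ≤ 1 := by
    rw [norm_pow]
    exact pow_le_one₀ (norm_nonneg _) hw
  exact add_le' (add_le' (mul_le_q h3 hw2) (mul_le_q hb' hw)) hc'

theorem T_norm (hφ : ∀ (w : ℚ_[p]) (X : Fin n → ℚ_[p]), ‖w‖ ≤ 1 → ‖D.phi w X‖ ≤ ‖X‖)
    (hv : ∀ a, ‖D.v a‖ ≤ 1) {b : J} {w : ℚ_[p]} (hw : ‖w‖ ≤ 1) (hb : ‖D.phi w (D.v b)‖ = 1)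
    (X : Fin n → ℚ_[p]) : ‖D.T b w X‖ ≤ ‖X‖ := by
  rw [Lin.T]
  refine sub_le' le_rfl (smul_le_q ?_ (hv b))
  rw [norm_div, hb, div_one]
  exact hφ w X hw

theorem zpow_tendsto (a : ℤ) :
    Tendsto (fun N : ℕ => (p : ℝ) ^ (a - (N : ℤ))) atTop (𝓝 0) := by
  have h1 : (1 : ℝ) < p := by exact_mod_cast (Fact.out : p.Prime).one_lt
  have h0 : (p : ℝ) ≠ 0 := by positivity
  have e : (fun N : ℕ => (p : ℝ) ^ (a - (N : ℤ))) = fun N : ℕ => (p : ℝ) ^ a * ((p : ℝ)⁻¹) ^ N := by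
    funext N
    rw [zpow_sub₀ h0, inv_pow, zpow_natCast]
    rfl
  rw [e]
  have := (tendsto_pow_atTop_nhds_zero_of_lt_one (r := (p : ℝ)⁻¹) (by positivity)
    (inv_lt_one_of_one_lt₀ h1)).const_mul ((p : ℝ) ^ a)
  rwa [mul_zero] at this

/-- D5b. The eigenvector and the direction of the periodic path. -/
theorem eigen {J : Type} (D : Lin ℚ_[p] n J) (j m l : J) (hqa : ∀ i, ‖D.qa i‖ ≤ 1)
    (hqb : ∀ i, ‖D.qb i‖ ≤ 1) (hqc : ∀ i, ‖D.qc i‖ ≤ 1) (hζ : ∀ a, ‖D.ζ a‖ ≤ 1)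
    (hv : ∀ a, ‖D.v a‖ ≤ 1) (hj : D.phi (D.ζ j) (D.v j) = 0) (hm : D.phi (D.ζ m) (D.v m) = 0)
    (hl : D.phi (D.ζ l) (D.v l) = 0) (hjm : ‖D.phi (D.ζ m) (D.v j)‖ = 1)
    (hml : ‖D.phi (D.ζ l) (D.v m)‖ = 1) (hlj : ‖D.phi (D.ζ j) (D.v l)‖ = 1)
    (hlj' : ‖D.ζ l - D.ζ j‖ = 1) (k0 : ℕ) (hk : 3 ≤ k0) (X : ℕ → Fin n → ℚ_[p])
    (hX : ∀ N, ‖X N‖ ≤ (p : ℝ) ^ (-(k0 + N : ℕ) : ℤ))
    (hld : ∀ N, ‖D.ld (X N)‖ = (p : ℝ) ^ (-(k0 + N : ℕ) : ℤ))
    (hst : ∀ N, ‖X (N + 1) - D.Tp j [m, l, j] (X N)‖ ≤ (p : ℝ) ^ (-(2 * (k0 + N : ℕ)) : ℤ)) :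
    ∃ (e : Fin n → ℚ_[p]) (ρ : ℚ_[p]), D.phi (D.ζ l) e = 0 ∧ D.phi (D.ζ j) e = 0 ∧
      D.ld e = 1 ∧ D.Tp j [m, l, j] e = ρ • e ∧ ‖ρ‖ = (p : ℝ) ^ (-1 : ℤ) ∧ ‖e‖ ≤ 1 ∧
      Tendsto (fun N => (D.ld (X N))⁻¹ • X N) atTop (𝓝 e) := by
  have ne1 : ∀ {a : ℚ_[p]}, ‖a‖ = 1 → a ≠ 0 := by
    intro a h h0
    rw [h0, norm_zero] at h
    exact zero_ne_one h
  have hld1 : ∀ Y : Fin n → ℚ_[p], ‖D.ld Y‖ ≤ ‖Y‖ := fun Y => sum_le_q hqa
  have hφ : ∀ (w : ℚ_[p]) (Y : Fin n → ℚ_[p]), ‖w‖ ≤ 1 → ‖D.phi w Y‖ ≤ ‖Y‖ := by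
    intro w Y hw
    have hw2 : ‖w ^ 2‖ ≤ 1 := by
      rw [norm_pow]
      exact pow_le_one₀ (norm_nonneg _) hw
    rw [phi_eq]
    exact add_le' (add_le' (mul_le_q (sum_le_q hqa) hw2) (mul_le_q (sum_le_q hqb) hw))
      (sum_le_q hqc)
  have hvφ : ∀ a w, ‖w‖ ≤ 1 → ‖D.phi w (D.v a)‖ ≤ 1 := fun a w hw => (hφ w _ hw).trans (hv a)
  set T : (Fin n → ℚ_[p]) → Fin n → ℚ_[p] := D.Tp j [m, l, j] with hT
  have hTe : ∀ Y, T Y = D.T l (D.ζ j) (D.T m (D.ζ l) (D.T j (D.ζ m) Y)) := fun Y => rfl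
  have hTs : ∀ Y Z, T (Y - Z) = T Y - T Z := fun Y Z => Tp_sub D _ _ _ _
  have hTa : ∀ Y Z, T (Y + Z) = T Y + T Z := fun Y Z => Tp_add D _ _ _ _
  have hTm : ∀ (a : ℚ_[p]) Y, T (a • Y) = a • T Y := fun a Y => Tp_smul D _ _ _ _
  have hTn : ∀ Y, ‖T Y‖ ≤ ‖Y‖ := by
    intro Y
    rw [hTe]
    exact (T_norm hφ hv (hζ j) hlj _).trans ((T_norm hφ hv (hζ l) hml _).trans
      (T_norm hφ hv (hζ m) hjm _))
  have hTl : ∀ Y, D.phi (D.ζ l) (T Y) = 0 := by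
    intro Y
    rw [hTe, phi_T' _ _ _ _ _ hl]
    exact phi_T _ _ _ _ (ne1 hml)
  have hTj : ∀ Y, D.phi (D.ζ j) (T Y) = 0 := by
    intro Y
    rw [hTe]
    exact phi_T _ _ _ _ (ne1 hlj)
  -- vectors with small quadratic polynomial are nearly fixed
  have hfix : ∀ {ε : ℝ} {Y}, ‖D.phi (D.ζ l) Y‖ ≤ ε → ‖D.phi (D.ζ j) Y‖ ≤ ε → ‖D.ld Y‖ ≤ ε →
      ‖T Y - Y‖ ≤ ε := by
    intro ε Y h1 h2 h3
    have s0 : Sm D ε Y := Sm.of (hζ l) (hζ j) hlj' h1 h2 h3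
    have s1 : Sm D ε (D.T j (D.ζ m) Y) := s0.T hvφ (hζ m) hjm
    have s2 : Sm D ε (D.T m (D.ζ l) (D.T j (D.ζ m) Y)) := s1.T hvφ (hζ l) hml
    rw [hTe]
    exact tri_le (s2.T_near hv (hζ j) hlj) (tri_le (s1.T_near hv (hζ l) hml)
      (s0.T_near hv (hζ m) hjm))
  have hp0 : ∀ k : ℤ, (0 : ℝ) < (p : ℝ) ^ k := fun k => zpk_pos (p := p) k
  -- the vector `Y`
  set Y := T (X 0) with hY
  have hY1 : ‖Y - X 1‖ ≤ (p : ℝ) ^ (-(2 * (k0 : ℤ))) := by
    rw [norm_sub_rev]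
    have := hst 0
    simpa using this
  have hldY : ‖D.ld Y‖ = (p : ℝ) ^ (-(k0 : ℤ) - 1) := by
    refine norm_eq_of_sub_lt (b := D.ld (X 1)) ?_ ?_
    · rw [← ld_sub]
      exact lt_of_le_of_lt ((hld1 _).trans hY1) (zpk_lt (by omega))
    · rw [hld 1]
      congr 1
      push_cast
      ring
  have hYn : ‖Y‖ ≤ (p : ℝ) ^ (-(k0 : ℤ) - 1) := by
    have e : Y = (Y - X 1) + X 1 := by abel
    rw [e]
    refine add_le' (hY1.trans (zpk_le (by omega))) ((hX 1).trans (zpk_le ?_))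
    push_cast
    omega
  have hTY : ‖T Y - X 2‖ ≤ (p : ℝ) ^ (-(2 * (k0 : ℤ))) := by
    refine tri_le (b := T (X 1)) ?_ ?_
    · rw [← hTs]
      exact (hTn _).trans hY1
    · rw [norm_sub_rev]
      refine (hst 1).trans (zpk_le ?_)
      push_cast
      omega
  have hldTY : ‖D.ld (T Y)‖ = (p : ℝ) ^ (-(k0 : ℤ) - 2) := by
    refine norm_eq_of_sub_lt (b := D.ld (X 2)) ?_ ?_
    · rw [← ld_sub]
      exact lt_of_le_of_lt ((hld1 _).trans hTY) (zpk_lt (by omega))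
    · rw [hld 2]
      congr 1
      push_cast
      ring
  have hldY0 : D.ld Y ≠ 0 := by
    intro h0
    rw [h0, norm_zero] at hldY
    exact (hp0 _).ne hldY
  set ρ : ℚ_[p] := D.ld (T Y) / D.ld Y with hρ
  have hρn : ‖ρ‖ = (p : ℝ) ^ (-1 : ℤ) := by
    rw [hρ, norm_div, hldY, hldTY, div_eq_iff (hp0 _).ne', ← zpk_add]
    congr 1
    ring
  have hρlt : ‖ρ‖ < 1 := by
    rw [hρn]
    have := zpk_lt (p := p) (show (-1 : ℤ) < 0 by norm_num)
    rwa [zpow_zero] at this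
  have hρ1 : ‖ρ - 1‖ = 1 := by
    refine norm_eq_of_sub_lt (b := -1) ?_ (by simp)
    simpa using hρlt
  have hρ10 : ρ - 1 ≠ 0 := ne1 hρ1
  set κ : Fin n → ℚ_[p] := T Y - ρ • Y with hκ
  have hκl : D.phi (D.ζ l) κ = 0 := by
    rw [hκ, phi_sub, phi_smul, hTl, hY, hTl, mul_zero, sub_zero]
  have hκj : D.phi (D.ζ j) κ = 0 := by
    rw [hκ, phi_sub, phi_smul, hTj, hY, hTj, mul_zero, sub_zero]
  have hκd : D.ld κ = 0 := by
    rw [hκ, ld_sub, ld_smul, hρ, div_mul_cancel₀ _ hldY0, sub_self]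
  have hTκ : T κ = κ := by
    have := hfix (ε := 0) (Y := κ) (by rw [hκl, norm_zero]) (by rw [hκj, norm_zero])
      (by rw [hκd, norm_zero])
    exact sub_eq_zero.mp (norm_le_zero_iff.mp this)
  have hκn : ‖κ‖ ≤ (p : ℝ) ^ (-(k0 : ℤ) - 1) := by
    refine sub_le' ((hTn _).trans hYn) ?_
    rw [norm_smul]
    exact (mul_le_of_le_one_left (norm_nonneg _) hρlt.le).trans hYn
  set e : Fin n → ℚ_[p] := (D.ld Y)⁻¹ • (Y + (ρ - 1)⁻¹ • κ) with he
  have hel : D.phi (D.ζ l) e = 0 := by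
    rw [he, phi_smul, phi_add, phi_smul, hκl, hY, hTl, mul_zero, add_zero, mul_zero]
  have hej : D.phi (D.ζ j) e = 0 := by
    rw [he, phi_smul, phi_add, phi_smul, hκj, hY, hTj, mul_zero, add_zero, mul_zero]
  have hed : D.ld e = 1 := by
    rw [he, ld_smul, ld_add, ld_smul, hκd, mul_zero, add_zero, inv_mul_cancel₀ hldY0]
  have hTe' : T e = ρ • e := by
    rw [he, hTm, hTa, hTm, hTκ, show T Y = ρ • Y + κ by rw [hκ]; abel]
    rw [smul_comm ρ]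
    congr 1
    rw [smul_add, smul_smul, add_assoc]
    congr 1
    rw [show κ + (ρ - 1)⁻¹ • κ = (1 + (ρ - 1)⁻¹) • κ by rw [add_smul, one_smul]]
    congr 1
    field_simp
    ring
  have hen : ‖e‖ ≤ 1 := by
    rw [he, norm_smul, norm_inv, hldY, inv_mul_le_iff₀ (hp0 _), mul_one]
    refine add_le' hYn ?_
    rw [norm_smul, norm_inv, hρ1, inv_one, one_mul]
    exact hκn
  -- the direction
  set a : ℕ → ℚ_[p] := fun N => D.ld (X N) with ha
  set K : ℕ → Fin n → ℚ_[p] := fun N => X N - a N • e with hK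
  have hKd : ∀ N, D.ld (K N) = 0 := by
    intro N
    rw [hK]
    simp only
    rw [ld_sub, ld_smul, hed, mul_one, sub_self]
  have hKl : ∀ N, ‖D.phi (D.ζ l) (K (N + 1))‖ ≤ (p : ℝ) ^ (-(2 * ((k0 : ℤ) + N))) := by
    intro N
    have e1 : D.phi (D.ζ l) (K (N + 1)) = D.phi (D.ζ l) (X (N + 1) - T (X N)) := by
      rw [hK]
      simp only
      rw [phi_sub, phi_smul, hel, phi_sub, hTl, mul_zero]
    rw [e1]
    refine (hφ _ _ (hζ l)).trans ((hst N).trans_eq ?_)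
    push_cast
    rfl
  have hKj : ∀ N, ‖D.phi (D.ζ j) (K (N + 1))‖ ≤ (p : ℝ) ^ (-(2 * ((k0 : ℤ) + N))) := by
    intro N
    have e1 : D.phi (D.ζ j) (K (N + 1)) = D.phi (D.ζ j) (X (N + 1) - T (X N)) := by
      rw [hK]
      simp only
      rw [phi_sub, phi_smul, hej, phi_sub, hTj, mul_zero]
    rw [e1]
    refine (hφ _ _ (hζ j)).trans ((hst N).trans_eq ?_)
    push_cast
    rfl
  have hKT : ∀ N, ‖T (K (N + 1)) - K (N + 1)‖ ≤ (p : ℝ) ^ (-(2 * ((k0 : ℤ) + N))) := by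
    intro N
    exact hfix (hKl N) (hKj N) (by rw [hKd, norm_zero]; exact (hp0 _).le)
  have hKs : ∀ N, ‖K (N + 2) - K (N + 1)‖ ≤ (p : ℝ) ^ (-(2 * ((k0 : ℤ) + N))) := by
    intro N
    have h1 : ‖X (N + 2) - T (X (N + 1))‖ ≤ (p : ℝ) ^ (-(2 * ((k0 : ℤ) + N))) := by
      refine (hst (N + 1)).trans (zpk_le ?_)
      push_cast
      omega
    have h2 : T (X (N + 1)) = T (K (N + 1)) + (a (N + 1) * ρ) • e := by
      have : X (N + 1) = K (N + 1) + a (N + 1) • e := by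
        rw [hK]; simp
      rw [mul_smul, ← hTe', ← hTm, ← hTa, ← this]
    -- difference of the vectors
    set R1 : Fin n → ℚ_[p] := (X (N + 2) - T (X (N + 1))) + (T (K (N + 1)) - K (N + 1)) with hR1
    have hR1n : ‖R1‖ ≤ (p : ℝ) ^ (-(2 * ((k0 : ℤ) + N))) := add_le' h1 (hKT N)
    have h3 : X (N + 2) = K (N + 1) + (a (N + 1) * ρ) • e + R1 := by
      rw [hR1, h2]; abel
    have h4 : a (N + 2) = a (N + 1) * ρ + D.ld R1 := by
      have := congrArg D.ld h3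
      rw [ld_add, ld_add, ld_smul, hed, hKd, mul_one, zero_add] at this
      exact this
    have h5 : K (N + 2) - K (N + 1) = R1 - D.ld R1 • e := by
      have : K (N + 2) = X (N + 2) - a (N + 2) • e := rfl
      rw [this, h3, h4, add_smul]
      abel
    rw [h5]
    exact sub_le' hR1n (smul_le_q ((hld1 _).trans hR1n) hen)
  have hKM : ∀ N M, ‖K (N + 1 + M) - K (N + 1)‖ ≤ (p : ℝ) ^ (-(2 * ((k0 : ℤ) + N))) := by
    intro N M
    induction M with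
    | zero => simp [(hp0 _).le]
    | succ M ih =>
      refine tri_le ?_ ih
      have := hKs (N + M)
      rw [show N + 1 + (M + 1) = N + M + 2 by ring, show N + 1 + M = N + M + 1 by ring]
      refine this.trans (zpk_le ?_)
      push_cast
      omega
  have hXt : Tendsto X atTop (𝓝 0) := by
    rw [tendsto_zero_iff_norm_tendsto_zero]
    refine squeeze_zero (fun N => norm_nonneg _) (fun N => ?_) (zpow_tendsto (p := p) (-(k0 : ℤ)))
    refine (hX N).trans_eq ?_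
    congr 1
    push_cast
    ring
  have hat : Tendsto (fun N => a N • e) atTop (𝓝 0) := by
    rw [tendsto_zero_iff_norm_tendsto_zero]
    refine squeeze_zero (fun N => norm_nonneg _) (fun N => ?_) (zpow_tendsto (p := p) (-(k0 : ℤ)))
    refine smul_le_q ((hld N).trans_le ?_) hen
    refine le_of_eq ?_
    congr 1
    push_cast
    ring
  have hKt : Tendsto K atTop (𝓝 0) := by
    have := hXt.sub hat
    rwa [sub_zero] at this
  have hKn : ∀ N, ‖K (N + 1)‖ ≤ (p : ℝ) ^ (-(2 * ((k0 : ℤ) + N))) := by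
    intro N
    have h1 : Tendsto (fun M => K (N + 1 + M) - K (N + 1)) atTop (𝓝 (0 - K (N + 1))) := by
      refine Tendsto.sub_const ?_ _
      exact hKt.comp (tendsto_add_atTop_nat (N + 1) |>.congr fun M => by ring)
    have h2 := le_of_tendsto h1.norm (Eventually.of_forall fun M => hKM N M)
    rwa [zero_sub, norm_neg] at h2
  refine ⟨e, ρ, hel, hej, hed, hTe', hρn, hen, ?_⟩
  rw [← tendsto_sub_nhds_zero_iff, tendsto_zero_iff_norm_tendsto_zero]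
  rw [← tendsto_add_atTop_iff_nat 1]
  refine squeeze_zero (fun N => norm_nonneg _) (fun N => ?_) (zpow_tendsto (p := p) (1 - (k0 : ℤ)))
  have ha0 : a (N + 1) ≠ 0 := by
    intro h0
    have := hld (N + 1)
    rw [show D.ld (X (N + 1)) = 0 from h0, norm_zero] at this
    exact (hp0 _).ne this
  have e1 : (D.ld (X (N + 1)))⁻¹ • X (N + 1) - e = (a (N + 1))⁻¹ • K (N + 1) := by
    rw [hK]
    simp only
    rw [smul_sub, smul_smul, inv_mul_cancel₀ ha0, one_smul]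
  rw [e1, norm_smul, norm_inv, show ‖a (N + 1)‖ = _ from hld (N + 1), inv_mul_le_iff₀ (hp0 _),
    ← zpk_add]
  refine (hKn N).trans (zpk_le ?_)
  push_cast
  omega

end padic

end Pool.Agent.Helper66.XN
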