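import Pool.Agent.Helper24.HN.Defs

/-!
# Dynamics near a flop curve: the linearisation of one step at the limit point (D4)
-/

namespace Pool.Agent.Helper66.XN

open Pool.Agent.Helper24.HN

section norm

variable {E : Type*} [SeminormedAddCommGroup E] [IsUltrametricDist E]

lemma add_le {x y : E} {r : ℝ} (hx : ‖x‖ ≤ r) (hy : ‖y‖ ≤ r) : ‖x + y‖ ≤ r :=
  (IsUltrametricDist.norm_add_le_max x y).trans (max_le hx hy)

lemma sub_le {x y : E} {r : ℝ} (hx : ‖x‖ ≤ r) (hy : ‖y‖ ≤ r) : ‖x - y‖ ≤ r := by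
  rw [sub_eq_add_neg]
  exact add_le hx (by rwa [norm_neg])

lemma sub_le' {x y w : E} {r : ℝ} (hx : ‖x - w‖ ≤ r) (hy : ‖y - w‖ ≤ r) : ‖x - y‖ ≤ r := by
  rw [show x - y = (x - w) - (y - w) by abel]
  exact sub_le hx hy

lemma norm_eq_one {x y : E} {r : ℝ} (hr : r < 1) (h : ‖x - y‖ ≤ r) (hy : ‖y‖ = 1) : ‖x‖ = 1 := by
  have h1 : ‖x‖ ≤ 1 := by
    rw [show x = (x - y) + y by abel]
    exact add_le (h.trans hr.le) hy.le
  refine le_antisymm h1 ?_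
  by_contra hlt
  push Not at hlt
  have : ‖y‖ < 1 := by
    rw [show y = x - (x - y) by abel]
    exact lt_of_le_of_lt (sub_le (r := max ‖x‖ r) (le_max_left _ _) (h.trans (le_max_right _ _)))
      (max_lt hlt hr)
  linarith

end norm

variable {p : ℕ} [Fact p.Prime] {n : ℕ}

lemma hp1 : (1 : ℝ) < p := by exact_mod_cast (Fact.out : p.Prime).one_lt

lemma pow_lt_one {k : ℕ} (hk : 0 < k) : (p : ℝ) ^ (-(k : ℤ)) < 1 := by
  have h := hp1 (p := p)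
  exact zpow_lt_one_of_neg₀ h (by omega)

lemma two_lt_one : (p : ℝ) ^ (-2 : ℤ) < 1 := zpow_lt_one_of_neg₀ (hp1 (p := p)) (by norm_num)

lemma vle (v : V p n) : ‖v‖ ≤ 1 := by
  rw [pi_norm_le_iff_of_nonneg zero_le_one]
  exact fun i => PadicInt.norm_le_one _

lemma lin_le (f : V p n →ₗ[ℤ_[p]] ℤ_[p]) (v : V p n) : ‖f v‖ ≤ ‖v‖ := by
  have h : f v = ∑ i, v i * f (Pi.single i 1) := by
    conv_lhs => rw [pi_eq_sum_univ' v, map_sum]
    refine Finset.sum_congr rfl fun i _ => ?_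
    rw [map_smul, smul_eq_mul]
  rw [h]
  refine IsUltrametricDist.norm_sum_le_of_forall_le_of_nonneg (norm_nonneg _) fun i _ => ?_
  rw [norm_mul]
  calc ‖v i‖ * ‖f (Pi.single i 1)‖ ≤ ‖v‖ * 1 :=
        mul_le_mul (norm_le_pi_norm v i) (PadicInt.norm_le_one _) (norm_nonneg _) (norm_nonneg _)
    _ = ‖v‖ := mul_one _

lemma smul_le (t : ℤ_[p]) (v : V p n) : ‖t • v‖ ≤ ‖t‖ := by
  rw [norm_smul]
  exact mul_le_of_le_one_right (norm_nonneg _) (vle v)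

lemma smul_le' (t : ℤ_[p]) (v : V p n) : ‖t • v‖ ≤ ‖v‖ := by
  rw [norm_smul]
  exact mul_le_of_le_one_left (norm_nonneg _) (PadicInt.norm_le_one _)

lemma mul_le1 (x y : ℤ_[p]) : ‖x * y‖ ≤ ‖x‖ := by
  rw [norm_mul]
  exact mul_le_of_le_one_right (norm_nonneg _) (PadicInt.norm_le_one _)

lemma mul_le2 (x y : ℤ_[p]) : ‖x * y‖ ≤ ‖y‖ := by
  rw [norm_mul]
  exact mul_le_of_le_one_left (norm_nonneg _) (PadicInt.norm_le_one _)

variable (L : Loc p n)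

/-- Taylor's formula for the quadratic equation. -/
lemma F_taylor (x h : V p n) (v : ℤ_[p]) : ‖L.F (x + h) v - L.F x v - L.dF x h v‖ ≤ ‖h‖ ^ 2 := by
  have e : L.F (x + h) v - L.F x v - L.dF x h v =
      (L.A (x + h) - L.A x - L.dA x h) * v ^ 2 + (L.B (x + h) - L.B x - L.dB x h) * v +
        (L.C (x + h) - L.C x - L.dC x h) := by
    simp only [Loc.F, Loc.dF]; ring
  rw [e]
  exact add_le (add_le ((mul_le1 _ _).trans (L.hA x h)) ((mul_le1 _ _).trans (L.hB x h)))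
    (L.hC x h)

/-- The derivative of the quadratic equation is linear. -/
noncomputable def dFl (x : V p n) (w : ℤ_[p]) : V p n →ₗ[ℤ_[p]] ℤ_[p] :=
  w ^ 2 • L.dA x + w • L.dB x + L.dC x

lemma dFl_apply (x v : V p n) (w : ℤ_[p]) : dFl L x w v = L.dF x v w := by
  simp [dFl, Loc.dF, mul_comm]

lemma d_sub_le {D : V p n → V p n →ₗ[ℤ_[p]] ℤ_[p]}
    (hD : ∀ x h v, ‖D (x + h) v - D x v‖ ≤ ‖h‖ * ‖v‖) {x x' v v' : V p n} {r : ℝ}
    (hx : ‖x - x'‖ ≤ r) (hv : ‖v - v'‖ ≤ r) : ‖D x v - D x' v'‖ ≤ r := by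
  have e : D x v - D x' v' = (D (x' + (x - x')) v - D x' v) + D x' (v - v') := by
    rw [map_sub]
    simp
  rw [e]
  refine add_le ?_ ((lin_le _ _).trans hv)
  refine (hD _ _ _).trans ((mul_le_of_le_one_right (norm_nonneg _) (vle v)).trans hx)

lemma dF_sub_le {x x' v v' : V p n} {z z' : ℤ_[p]} {r : ℝ}
    (hx : ‖x - x'‖ ≤ r) (hv : ‖v - v'‖ ≤ r) (hz : ‖z - z'‖ ≤ r) :
    ‖L.dF x v z - L.dF x' v' z'‖ ≤ r := by
  have e : L.dF x v z - L.dF x' v' z' =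
      (L.dA x v - L.dA x' v') * z ^ 2 + (z - z') * (L.dA x' v' * (z + z')) +
      ((L.dB x v - L.dB x' v') * z + (z - z') * L.dB x' v') + (L.dC x v - L.dC x' v') := by
    simp only [Loc.dF]; ring
  rw [e]
  refine add_le (add_le (add_le ?_ ?_) (add_le ?_ ?_)) (d_sub_le L.hdC hx hv)
  · exact (mul_le1 _ _).trans (d_sub_le L.hdA hx hv)
  · exact (mul_le1 _ _).trans hz
  · exact (mul_le1 _ _).trans (d_sub_le L.hdB hx hv)
  · exact (mul_le1 _ _).trans hz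

variable {L}

lemma norm_cst (x : V p n) : ‖cst x‖ = ‖x‖ := by
  rw [Pi.norm_def, Pi.norm_def]
  rfl

lemma phi_cst {J : Type} (x1 : V p n) (ζ : J → ℤ_[p]) (w : ℤ_[p]) (X : V p n) :
    (lin L x1 ζ).phi (w : ℚ_[p]) (cst X) = ((L.dF x1 X w : ℤ_[p]) : ℚ_[p]) := by
  have key : L.dF x1 X w = ∑ i, (L.dA x1 (Pi.single i 1) * w ^ 2 + L.dB x1 (Pi.single i 1) * w +
      L.dC x1 (Pi.single i 1)) * X i := by
    rw [← dFl_apply]
    conv_lhs => rw [pi_eq_sum_univ' X, map_sum]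
    refine Finset.sum_congr rfl fun i _ => ?_
    rw [map_smul, smul_eq_mul, dFl_apply, mul_comm]
    rfl
  rw [key]
  simp [Lin.phi, lin, cst]

variable {J : Type} [DecidableEq J] {R : Ref L J} {M : Mems L R}

/-- The distance of the parameter of the preimage to the zero of `psi`. -/
lemma z_near {b : J} (hb : b ≠ R.y) {x1 X : V p n} {ζ z t : ℤ_[p]} {r : ℝ}
    (h1 : ‖x1 - R.u0‖ ≤ (p : ℝ) ^ (-2 : ℤ)) (hζ : ‖ζ - R.z b‖ ≤ (p : ℝ) ^ (-2 : ℤ))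
    (hψ : L.psi x1 ζ = 0) (hz : ‖z - R.z b‖ ≤ (p : ℝ) ^ (-2 : ℤ))
    (hX : ‖X - x1‖ ≤ r) (ht : ‖t‖ ≤ r) (h : t * L.kap X z = L.psi X z) : ‖z - ζ‖ ≤ r := by
  have hs : ‖L.sl x1 z ζ‖ = 1 := by
    refine norm_eq_one (two_lt_one (p := p)) ?_ (R.hsl b hb)
    exact (L.hsl' _ _ _ _ _ _).trans (max_le h1 (max_le hz hζ))
  have e : (z - ζ) * L.sl x1 z ζ = L.psi x1 z := by
    rw [← L.hsl, hψ, sub_zero]
  have e2 : ‖z - ζ‖ = ‖L.psi x1 z‖ := by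
    rw [← e, norm_mul, hs, mul_one]
  rw [e2, show L.psi x1 z = t * L.kap X z - (L.psi X z - L.psi x1 z) by rw [h]; ring]
  exact sub_le ((mul_le1 _ _).trans ht) ((L.hpsi _ _ _).trans hX)

/-- D4. Linearisation at `x1`. -/
theorem linear {i b c : J} {k N k' : ℕ} {x x' : ℤ_[p] → V p n} (h : St M i b k N x)
    (h' : St M b c k' (N + 1) x') (hb : Ok R b c) (hl : Link R k b c x x') (x1 : V p n)
    (h1 : ‖x1 - R.u0‖ ≤ (p : ℝ) ^ (-2 : ℤ)) (hA : L.A x1 = 0) (hB : L.B x1 = 0) (hC : L.C x1 = 0)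
    (ζ : J → ℤ_[p]) (hζ : ∀ a, a ≠ R.y → ‖ζ a - R.z a‖ ≤ (p : ℝ) ^ (-2 : ℤ) ∧ L.psi x1 (ζ a) = 0)
    (hx : ∀ z, ‖z - R.z b‖ ≤ (p : ℝ) ^ (-2 : ℤ) → ‖x z - x1‖ ≤ (p : ℝ) ^ (-k : ℤ))
    (w : ℤ_[p]) (hw : ‖w - R.z c‖ ≤ (p : ℝ) ^ (-2 : ℤ)) :
    ‖cst (x' w) - cst x1 - (lin L x1 ζ).T b w (cst (x (ζ b)) - cst x1)‖ ≤
      (p : ℝ) ^ (-(2 * k) : ℤ) := by
  obtain ⟨z, t, hz, ht, htk, hxw⟩ := hl w hw
  obtain ⟨hbc, hby, hcy, hmj⟩ := hb
  obtain ⟨hζb, hψ⟩ := hζ b hby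
  set r : ℝ := (p : ℝ) ^ (-k : ℤ) with hr
  have hr0 : 0 < r := zpow_pos (by have := hp1 (p := p); linarith) _
  have hr2 : (p : ℝ) ^ (-(2 * k) : ℤ) = r * r := by
    have hp0 : (p : ℝ) ≠ 0 := by have := hp1 (p := p); linarith
    rw [hr, ← zpow_add₀ hp0]
    congr 1
    ring
  rw [hr2]
  have hzζ : ‖z - ζ b‖ ≤ r := z_near hby h1 hζb hψ hz (hx z hz) ht htk
  set ξ1 : V p n := L.xi x1 (ζ b) with hξ1
  set X : V p n := x (ζ b) - x1 with hX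
  have hE1 : ‖x' w - x1 - (X - t • ξ1)‖ ≤ r * r := by
    have e : x' w - x1 - (X - t • ξ1) = (x z - x (ζ b)) - t • (L.xi (x z) z - ξ1) := by
      rw [hxw, hX, smul_sub]; abel
    rw [e]
    refine sub_le ?_ ?_
    · exact (h.lip z (ζ b) hz hζb).trans (mul_le_mul_of_nonneg_left hzζ hr0.le)
    · rw [norm_smul]
      exact mul_le_mul ht ((L.hxi _ _ _ _).trans (max_le (hx z hz) hzζ)) (norm_nonneg _) hr0.le
  have hd : ‖x' w - x1‖ ≤ r := by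
    have e : x' w - x1 = (x z - x1) - t • L.xi (x z) z := by rw [hxw]; abel
    rw [e]
    exact sub_le (hx z hz) ((smul_le _ _).trans ht)
  have hF0 : L.F (x' w) w = 0 := M.on _ _ _ (h'.mem w hw)
  have hF1 : L.F x1 w = 0 := by simp [Loc.F, hA, hB, hC]
  have hD : ‖L.dF x1 (x' w - x1) w‖ ≤ r * r := by
    have h3 := F_taylor L x1 (x' w - x1) w
    rw [add_sub_cancel, hF0, hF1, sub_zero, zero_sub, norm_neg, pow_two] at h3
    exact h3.trans (mul_le_mul hd hd (norm_nonneg _) hr0.le)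
  have hunit : ‖L.dF x1 ξ1 w‖ = 1 := by
    refine norm_eq_one (two_lt_one (p := p)) ?_ (R.hT c b hbc.symm ?_)
    · exact dF_sub_le L h1 ((L.hxi _ _ _ _).trans (max_le h1 hζb)) hw
    · tauto
  have hDt : ‖L.dF x1 X w - t * L.dF x1 ξ1 w‖ ≤ r * r := by
    have e : L.dF x1 X w - t * L.dF x1 ξ1 w =
        L.dF x1 (x' w - x1) w - dFl L x1 w (x' w - x1 - (X - t • ξ1)) := by
      rw [← dFl_apply, ← dFl_apply, ← dFl_apply]
      simp only [map_sub, map_smul, smul_eq_mul]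
      ring
    rw [e]
    exact sub_le hD ((lin_le _ _).trans hE1)
  -- in the field
  set u : ℤ_[p] := L.dF x1 ξ1 w with hu
  have hun : ‖(u : ℚ_[p])‖ = 1 := hunit
  have hne : (u : ℚ_[p]) ≠ 0 := by
    intro h0
    rw [h0, norm_zero] at hun
    exact zero_ne_one hun
  have hcX : cst (x (ζ b)) - cst x1 = cst X := by
    funext i
    simp [cst, hX]
  have hT : (lin L x1 ζ).T b w (cst X) = cst X - (((L.dF x1 X w : ℤ_[p]) : ℚ_[p]) / u) • cst ξ1 := by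
    unfold Lin.T
    rw [phi_cst]
    have e : (lin L x1 ζ).v b = cst ξ1 := rfl
    rw [e, phi_cst]
  rw [hcX, hT]
  have e : cst (x' w) - cst x1 - (cst X - (((L.dF x1 X w : ℤ_[p]) : ℚ_[p]) / u) • cst ξ1) =
      cst (x' w - x1 - (X - t • ξ1)) +
        (((L.dF x1 X w - t * u : ℤ_[p]) : ℚ_[p]) / u) • cst ξ1 := by
    funext i
    simp only [cst, Pi.sub_apply, Pi.add_apply, Pi.smul_apply, smul_eq_mul, PadicInt.coe_sub,
      PadicInt.coe_mul]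
    field_simp
    ring
  rw [e]
  refine add_le (by rwa [norm_cst]) ?_
  rw [norm_smul, norm_div, hun, div_one, norm_cst]
  refine (mul_le_of_le_one_right (norm_nonneg _) (vle _)).trans ?_
  exact hDt

end Pool.Agent.Helper66.XN
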